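import Pool.Agent.H20Z.AnosovMain

set_option autoImplicit false

open MeasureTheory Pool.Agent.H20Z.Anosov

namespace Pool.Agent.Results.MP_480559_an.APressureNotRigid

/-- There are two homotopic `C^∞` area-preserving Anosov diffeomorphisms of the torus with the
same pressure function that are not `C¹` conjugate (so not `C^∞` conjugate). -/
theorem result : ∃ f g : AnosovDiffeo,
    MeasurePreserving f.map volume volume ∧ MeasurePreserving g.map volume volume ∧
    (∃ (hf : Continuous f.map) (hg : Continuous g.map),
      ContinuousMap.Homotopic (⟨f.map, hf⟩ : C(T2, T2)) ⟨g.map, hg⟩) ∧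
    (∀ t : ℝ, f.pressureFn t = g.pressureFn t) ∧
    ¬ ∃ h : T2 ≃ T2, IsCn 1 h ∧ IsCn 1 h.symm ∧ ∀ p, h (f.map p) = g.map (h p) :=
  main

end Pool.Agent.Results.MP_480559_an.APressureNotRigid
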